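import Mathlib
import Pool.Agent.N202.M4.Stm2

/-! Maximal orthogonal families of anisotropic vectors exist (helper478, for helper202's project M4). -/

set_option autoImplicit false

namespace Pool.Agent.N478.M4

/-- evaluation in the first variable as a linear map -/
private def lin {V : Type} [AddCommGroup V] [Module ℚ V] (B : V → V → ℚ)
    (hadd : ∀ x x' y, B (x + x') y = B x y + B x' y) (hsmul : ∀ (a : ℚ) x y, B (a • x) y = a * B x y)
    (y : V) : V →ₗ[ℚ] ℚ where
  toFun x := B x y
  map_add' x x' := hadd x x' y
  map_smul' a x := by simp [hsmul]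

theorem exi_ : Pool.Agent.N202.M4.S_EXI := by
  intro V _ _ B hsym hadd hsmul N hN
  classical
  set P : ℕ → Prop := fun n => ∃ z : Fin n → V, (∀ i, B (z i) (z i) ≠ 0) ∧
    (∀ i k, i ≠ k → B (z i) (z k) = 0) with hP
  have hP0 : P 0 := ⟨Fin.elim0, fun i => i.elim0, fun i => i.elim0⟩
  have hPn : ∀ n, P n → n ≤ N := fun n ⟨z, h1, h2⟩ => hN n z h1 h2
  set n := Nat.findGreatest P N with hn
  have hPspec : P n := Nat.findGreatest_spec (Nat.zero_le N) hP0
  have hmax : ¬ P (n + 1) := by
    intro h
    have h1 : n + 1 ≤ Nat.findGreatest P N := Nat.le_findGreatest (hPn _ h) h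
    omega
  obtain ⟨z, h1, h2⟩ := hPspec
  refine ⟨n, z, h1, h2, ?_⟩
  have hext : ∀ x, (∀ i, B x (z i) = 0) → B x x = 0 := by
    intro x hx
    by_contra hxx
    apply hmax
    refine ⟨Fin.cons x z, ?_, ?_⟩
    · intro i
      refine Fin.cases ?_ ?_ i
      · simpa using hxx
      · intro j; simpa using h1 j
    · intro i k
      refine Fin.cases ?_ ?_ i
      · refine Fin.cases ?_ ?_ k
        · intro h; exact absurd rfl h
        · intro j _; simpa using hx j
      · intro j
        refine Fin.cases ?_ ?_ k
        · intro _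
          simp only [Fin.cons_zero, Fin.cons_succ]
          rw [hsym]; exact hx j
        · intro j' hjj
          simp only [Fin.cons_succ]
          exact h2 j j' (fun h => hjj (by rw [h]))
  intro w hw w'
  by_contra hne
  set c : Fin n → ℚ := fun i => B w' (z i) / B (z i) (z i) with hc
  set w'' := w' - ∑ i, c i • z i with hw''
  have hlin : ∀ y, B w'' y = B w' y - ∑ i, c i * B (z i) y := by
    intro y
    have : lin B hadd hsmul y w'' = lin B hadd hsmul y w' - ∑ i, c i * lin B hadd hsmul y (z i) := by
      rw [hw'', map_sub, map_sum]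
      congr 1
      apply Finset.sum_congr rfl
      intro i _
      rw [map_smul, smul_eq_mul]
    exact this
  have horth : ∀ k, B w'' (z k) = 0 := by
    intro k
    rw [hlin, Finset.sum_eq_single k]
    · rw [hc]
      have := h1 k
      field_simp
      ring
    · intro i _ hik
      rw [h2 i k hik, mul_zero]
    · intro h; exact absurd (Finset.mem_univ k) h
  have hww : B w'' w = B w w' := by
    rw [hlin, Finset.sum_eq_zero, sub_zero, hsym]
    intro i _
    rw [hsym, hw i, mul_zero]
  have e1 := hext w hw
  have e2 := hext w'' horth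
  have e3 : B (w + w'') (w + w'') = 0 := by
    apply hext
    intro i
    rw [hadd, hw i, horth i, add_zero]
  have e4 : B w w'' = B w'' w := hsym _ _
  rw [hadd, hsym w (w + w''), hsym w'' (w + w''), hadd, hadd, e1, e2, e4, hww] at e3
  apply hne
  linarith

end Pool.Agent.N478.M4
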